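import Pool.Agent.Helper38.EC.GoalsE1

/-!
# MP_ecc237_nt: packet SYM
-/

set_option autoImplicit false

open MeasureTheory Filter Topology Set EC237 EC237.DX

namespace Pool.Agent.Helper27.EC.E_SYM

theorem incl_neg (r q : ℤ) (k : ℤ × ℤ) (h : (q + r) % 6 = 0) : InCl r (-k) ↔ InCl q k := by
  unfold InCl
  simp only [Prod.fst_neg, Prod.snd_neg]
  omega

theorem cs_swap (XC : G_XC) (w : ℂ) (i : ℕ) (r r' α α' : ℤ) (s : ℤ × ℤ) :
    cs w i r r' α α' s = -cs w i r' r α' α s := by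
  have h1 := (XC w).1
  unfold cs
  rw [← tsum_neg, ← (Equiv.subLeft s).tsum_eq]
  refine tsum_congr fun k => ?_
  rw [Equiv.subLeft_apply, sub_sub_cancel]
  by_cases hk : InCl r (s - k) ∧ InCl r' k
  · rw [if_pos hk, if_pos hk.symm, h1]
  · rw [if_neg hk, if_neg fun h => hk h.symm, neg_zero]

theorem cs_sign (XC : G_XC) (w : ℂ) (i : ℕ) (r r' α α' : ℤ) (s : ℤ × ℤ) :
    cs w i r r' (-α) (-α') s = (-1) ^ i * cs w i r r' α α' s := by
  have h3 := (XC w).2.2.1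
  unfold cs
  rw [← tsum_mul_left]
  refine tsum_congr fun k => ?_
  by_cases hk : InCl r k ∧ InCl r' (s - k)
  · rw [if_pos hk, if_pos hk, h3]
  · rw [if_neg hk, if_neg hk, mul_zero]

theorem zero_of_neg {c : ℂ} (h : c = -c) : c = 0 := self_eq_neg.1 h

theorem thm (XC : G_XC) (CSS : G_CSS) : G_SYM := by
  intro y hy
  have h6 : ∀ (i : ℕ) (r r' α α' : ℤ) (s : ℤ × ℤ),
      cs (y:ℂ) i r r' (-α) (-α') s = (-1) ^ i * cs (y:ℂ) i r r' α α' s :=
    fun i r r' α α' s => cs_sign XC _ i r r' α α' s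
  have h1 : ∀ (i : ℕ) (r r' α α' : ℤ) (s : ℤ × ℤ),
      cs (y:ℂ) i r r' α α' s = -cs (y:ℂ) i r' r α' α s :=
    fun i r r' α α' s => cs_swap XC _ i r r' α α' s
  refine ⟨h1, ?_, ?_, ?_, ?_, h6⟩
  · intro r α α' s
    have h4 := (XC (y:ℂ)).2.2.2.1
    have e : ∀ β β' : ℤ, cs (y:ℂ) 0 r r β β' s = cs (y:ℂ) 0 r r 0 0 s := by
      intro β β'
      unfold cs
      refine tsum_congr fun k => ?_
      by_cases hk : InCl r k ∧ InCl r (s - k)
      · rw [if_pos hk, if_pos hk, h4]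
      · rw [if_neg hk, if_neg hk]
    rw [e]
    exact zero_of_neg (h1 0 r r 0 0 s)
  · intro r s
    have a := h1 2 r r 1 (-1) s
    have b := h6 2 r r 1 (-1) s
    rw [neg_neg] at b
    rw [b] at a
    refine zero_of_neg ?_
    calc cs (y:ℂ) 2 r r 1 (-1) s = -((-1) ^ 2 * cs (y:ℂ) 2 r r 1 (-1) s) := a
      _ = -cs (y:ℂ) 2 r r 1 (-1) s := by ring
  · intro s hs
    have hx := (XC (y:ℂ)).2.2.2.2.2.1
    have s1 := CSS y hy 1 1 1 1 0 s (by norm_num) (Or.inl rfl) (Or.inl rfl) (by norm_num)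
      (by norm_num) hs
    have s2 := CSS y hy 1 1 1 0 (-1) s (by norm_num) (Or.inl rfl) (Or.inl rfl) (by norm_num)
      (by norm_num) hs
    have e1 : cs (y:ℂ) 1 1 1 1 (-1) s = cs (y:ℂ) 1 1 1 1 0 s + cs (y:ℂ) 1 1 1 0 (-1) s := by
      unfold cs
      rw [← s1.tsum_add s2]
      refine tsum_congr fun k => ?_
      by_cases hk : InCl 1 k ∧ InCl 1 (s - k)
      · rw [if_pos hk, if_pos hk, if_pos hk, hx]
      · rw [if_neg hk, if_neg hk, if_neg hk, add_zero]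
    have e2 := h1 1 1 1 0 (-1) s
    have e3 := h6 1 1 1 1 0 s
    rw [neg_zero] at e3
    rw [e1, e2, e3]
    unfold Ys
    ring
  · intro i r r' q q' α α' s hq hq'
    have h2 := (XC (y:ℂ)).2.1
    unfold cs
    rw [← (Equiv.neg (ℤ × ℤ)).tsum_eq]
    refine tsum_congr fun k => ?_
    rw [Equiv.neg_apply]
    have e : -s - -k = -(s - k) := by abel
    rw [e]
    have c1 := incl_neg r q k hq
    have c2 := incl_neg r' q' (s - k) hq'
    by_cases hk : InCl q k ∧ InCl q' (s - k)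
    · rw [if_pos hk, if_pos ⟨c1.2 hk.1, c2.2 hk.2⟩]
      have h := h2 i (-α) (-α') k (s - k)
      rw [neg_neg, neg_neg] at h
      exact h
    · rw [if_neg hk, if_neg fun h => hk ⟨c1.1 h.1, c2.1 h.2⟩]

end Pool.Agent.Helper27.EC.E_SYM
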