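import Pool.Agent.Helper23.EC.EGoals

/-!
# MP_ecc237_nt: packet EC2
-/

set_option autoImplicit false

open MeasureTheory Filter Topology Set EC237

namespace Pool.Agent.Helper27.EC.E_EC2

theorem coeff_gser (a α : ℂ) (p : ℕ) : PowerSeries.coeff p (gser a α) = α ^ p * a ^ (p + 1) := by
  unfold gser
  rw [PowerSeries.coeff_mk]

/-- the coefficient `c_j(a, a')` -/
noncomputable def cc (a a' : ℤ) (j : ℕ) : ℂ :=
  ∑ p ∈ Finset.HasAntidiagonal.antidiagonal j, (a:ℂ) ^ p.1 * (a':ℂ) ^ p.2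

theorem coeff_same (P : ℂ) (a a' : ℤ) (j : ℕ) :
    PowerSeries.coeff j (gser P (a:ℂ) * gser P (a':ℂ)) = cc a a' j * P ^ (j + 2) := by
  unfold cc
  rw [PowerSeries.coeff_mul, Finset.sum_mul]
  refine Finset.sum_congr rfl fun p hp => ?_
  rw [coeff_gser, coeff_gser]
  have h : p.1 + p.2 = j := Finset.HasAntidiagonal.mem_antidiagonal.1 hp
  rw [← h]
  ring

theorem norm_int_le {a : ℤ} (h : |a| ≤ 1) : ‖(a:ℂ)‖ ≤ 1 := by
  rw [Complex.norm_intCast]
  exact_mod_cast h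

theorem cc_le {a a' : ℤ} (h : |a| ≤ 1) (h' : |a'| ≤ 1) {j : ℕ} (hj : j ≤ 2) : ‖cc a a' j‖ ≤ 3 := by
  unfold cc
  refine (norm_sum_le _ _).trans ?_
  have h1 : ∀ p ∈ Finset.HasAntidiagonal.antidiagonal j, ‖(a:ℂ) ^ p.1 * (a':ℂ) ^ p.2‖ ≤ (1:ℝ) := by
    intro p _
    rw [norm_mul, norm_pow, norm_pow]
    exact mul_le_one₀ (pow_le_one₀ (norm_nonneg _) (norm_int_le h)) (by positivity)
      (pow_le_one₀ (norm_nonneg _) (norm_int_le h'))
  refine (Finset.sum_le_sum h1).trans ?_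
  rw [Finset.sum_const, Finset.Nat.card_antidiagonal, nsmul_eq_mul, mul_one]
  have : ((j:ℝ)) ≤ 2 := by exact_mod_cast hj
  push_cast
  linarith

theorem inv_A {z : ℝ} (hz : 0 < z) (n m : ℤ) :
    ((n:ℂ) + Complex.I * (m:ℂ) * ((z⁻¹:ℝ):ℂ))⁻¹ = -(Complex.I * z) * uz z n m := by
  have hz' : (z:ℂ) ≠ 0 := by exact_mod_cast hz.ne'
  have e : (n:ℂ) + Complex.I * (m:ℂ) * ((z⁻¹:ℝ):ℂ) =
      (Complex.I * (z:ℂ)⁻¹) * ((m:ℂ) - Complex.I * n * z) := by
    push_cast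
    have hI := Complex.I_mul_I
    have : (Complex.I * (z:ℂ)⁻¹) * ((m:ℂ) - Complex.I * n * z) =
        Complex.I * m * (z:ℂ)⁻¹ - (Complex.I * Complex.I) * n * ((z:ℂ)⁻¹ * z) := by ring
    rw [this, hI, inv_mul_cancel₀ hz']
    ring
  rw [e, mul_inv, mul_inv, inv_inv, Complex.inv_I]
  unfold uz
  ring

theorem inv_B {z : ℝ} (hz : 0 < z) (n m : ℤ) :
    ((n:ℂ) - Complex.I * (m:ℂ) * ((z⁻¹:ℝ):ℂ))⁻¹ = (Complex.I * z) * vz z n m := by
  have hz' : (z:ℂ) ≠ 0 := by exact_mod_cast hz.ne'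
  have e : (n:ℂ) - Complex.I * (m:ℂ) * ((z⁻¹:ℝ):ℂ) =
      (-Complex.I * (z:ℂ)⁻¹) * ((m:ℂ) + Complex.I * n * z) := by
    push_cast
    have hI := Complex.I_mul_I
    have : (-Complex.I * (z:ℂ)⁻¹) * ((m:ℂ) + Complex.I * n * z) =
        -(Complex.I * m * (z:ℂ)⁻¹) - (Complex.I * Complex.I) * n * ((z:ℂ)⁻¹ * z) := by ring
    rw [this, hI, inv_mul_cancel₀ hz']
    ring
  rw [e, mul_inv, mul_inv, inv_inv, inv_neg, Complex.inv_I, neg_neg]
  unfold vz
  ring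

theorem thm (hEB1 : EC237.EB1) (hEB2 : EC237.EB2) : EC237.EC2 := by
  obtain ⟨C, hC, hB⟩ := hEB2
  refine ⟨6 * C, by positivity, ?_⟩
  intro z hz c a a' j n1 hj ha ha' hn
  have hz0 : 0 < z := lt_of_lt_of_le one_pos hz
  have hterm : ∀ m1 : ℤ, (if InCl c (n1, m1) then
      PowerSeries.coeff j (XX ((z⁻¹:ℝ):ℂ) ((n1, m1), a) ((2 * n1 - n1, 0 - m1), a')) else 0) =
      cc a a' j * ((-(Complex.I * z)) ^ (j + 2) *
        (if (m1 - (c - 3 * n1)) % 6 = 0 then uz z n1 m1 ^ (j + 2) else 0)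
        - (Complex.I * z) ^ (j + 2) *
        (if (m1 - (c - 3 * n1)) % 6 = 0 then vz z n1 m1 ^ (j + 2) else 0)) := by
    intro m1
    have hiff : InCl c (n1, m1) ↔ (m1 - (c - 3 * n1)) % 6 = 0 := by
      unfold InCl
      have : m1 + 3 * n1 - c = m1 - (c - 3 * n1) := by ring
      rw [this]
    by_cases h : InCl c (n1, m1)
    · rw [if_pos h, if_pos (hiff.1 h), if_pos (hiff.1 h)]
      have e1 : (2 * n1 - n1, 0 - m1) = (n1, -m1) := by
        rw [zero_sub]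
        congr 1
        ring
      rw [e1]
      have hA1 : (KA ((z⁻¹:ℝ):ℂ) (n1, m1))⁻¹ = -(Complex.I * z) * uz z n1 m1 := inv_A hz0 n1 m1
      have hB1 : (KB ((z⁻¹:ℝ):ℂ) (n1, m1))⁻¹ = (Complex.I * z) * vz z n1 m1 := inv_B hz0 n1 m1
      have hA2 : (KA ((z⁻¹:ℝ):ℂ) (n1, -m1))⁻¹ = (Complex.I * z) * vz z n1 m1 := by
        rw [← hB1]
        unfold KA KB
        push_cast
        congr 1
        ring
      have hB2 : (KB ((z⁻¹:ℝ):ℂ) (n1, -m1))⁻¹ = -(Complex.I * z) * uz z n1 m1 := by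
        rw [← hA1]
        unfold KA KB
        push_cast
        congr 1
        ring
      unfold XX As Bs
      rw [hA1, hB1, hA2, hB2, map_sub, coeff_same, coeff_same, mul_pow, mul_pow]
      ring
    · rw [if_neg h, if_neg fun h' => h (hiff.2 h'), if_neg fun h' => h (hiff.2 h')]
      ring
  have hsum := (hEB1 z hz0 (c - 3 * n1) n1 0 0).1 (j + 2) (by omega)
  have hg : gX z c a a' j (2 * n1) 0 n1 = cc a a' j * ((-(Complex.I * z)) ^ (j + 2) *
      eU z (c - 3 * n1) n1 (j + 2) - (Complex.I * z) ^ (j + 2) *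
      eW z (c - 3 * n1) n1 (j + 2)) := by
    unfold gX
    rw [tsum_congr hterm, tsum_mul_left,
      (hsum.1.mul_left _).tsum_sub (hsum.2.mul_left _), tsum_mul_left, tsum_mul_left]
    rfl
  rw [hg]
  obtain ⟨b1, b2⟩ := hB z hz (c - 3 * n1) n1 hn (j + 2) (by omega) (by omega)
  have hew : 0 ≤ ewt z n1 := by
    unfold ewt
    split_ifs
    · exact le_rfl
    · exact (Real.exp_pos _).le
  have hIz : ‖Complex.I * (z:ℂ)‖ = z := by
    rw [norm_mul, Complex.norm_I, one_mul, Complex.norm_real, Real.norm_of_nonneg hz0.le]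
  have hzp : z ^ (j + 2) ≤ z ^ 4 := pow_le_pow_right₀ hz (by omega)
  have hzp0 : 0 ≤ z ^ (j + 2) := by positivity
  calc ‖cc a a' j * ((-(Complex.I * z)) ^ (j + 2) * eU z (c - 3 * n1) n1 (j + 2)
        - (Complex.I * z) ^ (j + 2) * eW z (c - 3 * n1) n1 (j + 2))‖
      = ‖cc a a' j‖ * ‖(-(Complex.I * z)) ^ (j + 2) * eU z (c - 3 * n1) n1 (j + 2)
        - (Complex.I * z) ^ (j + 2) * eW z (c - 3 * n1) n1 (j + 2)‖ := norm_mul _ _
    _ ≤ 3 * (z ^ (j + 2) * (C * ewt z n1) + z ^ (j + 2) * (C * ewt z n1)) := by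
        refine mul_le_mul (cc_le ha ha' hj) ?_ (norm_nonneg _) (by norm_num)
        refine (norm_sub_le _ _).trans (add_le_add ?_ ?_)
        · rw [norm_mul, norm_pow, norm_neg, hIz]
          exact mul_le_mul_of_nonneg_left b1 hzp0
        · rw [norm_mul, norm_pow, hIz]
          exact mul_le_mul_of_nonneg_left b2 hzp0
    _ = 6 * C * z ^ (j + 2) * ewt z n1 := by ring
    _ ≤ 6 * C * z ^ 4 * ewt z n1 := by
        refine mul_le_mul_of_nonneg_right ?_ hew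
        exact mul_le_mul_of_nonneg_left hzp (by positivity)

end Pool.Agent.Helper27.EC.E_EC2
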